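import Pool.Agent.Helper68.DS.Goals2

set_option autoImplicit false

namespace Pool.Agent.Helper75.DS

open Pool.Agent.Helper68.DS MvPolynomial

/-- coefficients of a polynomial curve inside a subspace -/
theorem coeff_mem {V : Type} [AddCommGroup V] [Module ℂ V] (H : Submodule ℂ V) (N : ℕ)
    (c : ℕ → V) (h : ∀ t : ℂ, ∑ n ∈ Finset.range N, t ^ n • c n ∈ H) :
    ∀ n < N, c n ∈ H := by
  intro n hn
  rw [← Submodule.Quotient.mk_eq_zero]
  rw [← Module.forall_dual_apply_eq_zero_iff ℂ]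
  intro φ
  let p : Polynomial ℂ := ∑ m ∈ Finset.range N,
    Polynomial.monomial m (φ (Submodule.Quotient.mk (c m)))
  have hp : p = 0 := by
    apply Polynomial.funext
    intro t
    have h1 := h t
    rw [← Submodule.Quotient.mk_eq_zero] at h1
    have h2 := congrArg φ h1
    rw [map_zero] at h2
    rw [Polynomial.eval_zero, ← h2]
    simp only [p, Polynomial.eval_finsetSum, Polynomial.eval_monomial]
    have h3 : (Submodule.Quotient.mk (∑ m ∈ Finset.range N, t ^ m • c m) : V ⧸ H) =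
        ∑ m ∈ Finset.range N, t ^ m • (Submodule.Quotient.mk (c m) : V ⧸ H) := by
      rw [← Submodule.mkQ_apply, map_sum]
      rfl
    rw [h3, map_sum]
    refine Finset.sum_congr rfl fun m _ => ?_
    rw [map_smul, smul_eq_mul, mul_comm]
  have h4 : p.coeff n = φ (Submodule.Quotient.mk (c n)) := by
    simp only [p, Polynomial.finsetSum_coeff, Polynomial.coeff_monomial]
    rw [Finset.sum_ite_eq' (Finset.range N) n]
    rw [if_pos (Finset.mem_range.mpr hn)]
  rw [← h4, hp, Polynomial.coeff_zero]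

theorem lf_add {n : ℕ} (a b : Fin n → ℂ) : lf (a + b) = lf a + lf b := by
  simp only [lf, Pi.add_apply, map_add, add_mul, Finset.sum_add_distrib]

theorem lf_smul {n : ℕ} (t : ℂ) (a : Fin n → ℂ) : lf (t • a) = t • lf a := by
  simp only [lf, Pi.smul_apply, smul_eq_mul, map_mul, Finset.smul_sum, smul_eq_C_mul, mul_assoc]

theorem lf_zero {n : ℕ} : lf (0 : Fin n → ℂ) = 0 := by
  simp [lf]

theorem powers_span (k : ℕ) (H : Submodule ℂ (MvPolynomial (Fin 3) ℂ))
    (h : ∀ z : Fin 3 → ℂ, lf z ^ k ∈ H) : HS 3 k ≤ H := by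
  -- all monomials
  have h1 : ∀ (x0 x1 : ℂ) (c : ℕ), c ≤ k →
      (X 2 : MvPolynomial (Fin 3) ℂ) ^ c * (C x0 * X 0 + C x1 * X 1) ^ (k - c) ∈ H := by
    intro x0 x1 c hc
    have h2 := coeff_mem H (k + 1) (fun c => (k.choose c : ℂ) •
      ((X 2 : MvPolynomial (Fin 3) ℂ) ^ c * (C x0 * X 0 + C x1 * X 1) ^ (k - c))) (by
        intro t
        have h3 := h ![x0, x1, t]
        have h4 : lf ![x0, x1, t] = C t * X 2 + (C x0 * X 0 + C x1 * X 1) := by
          simp [lf, Fin.sum_univ_three]; ring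
        rw [h4, add_pow] at h3
        convert h3 using 2 with m hm
        rw [smul_eq_C_mul, smul_eq_C_mul, mul_pow, ← map_pow]
        have : (C (k.choose m : ℂ) : MvPolynomial (Fin 3) ℂ) = (k.choose m : MvPolynomial (Fin 3) ℂ) := by
          simp
        rw [this]; ring) c (by omega)
    have h5 : (k.choose c : ℂ) ≠ 0 := by
      exact_mod_cast (Nat.choose_pos hc).ne'
    exact (Submodule.smul_mem_iff H h5).mp h2
  have h6 : ∀ (b c : ℕ), b + c ≤ k →
      (X 0 : MvPolynomial (Fin 3) ℂ) ^ (k - c - b) * X 1 ^ b * X 2 ^ c ∈ H := by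
    intro b c hbc
    have h2 := coeff_mem H (k - c + 1) (fun b => ((k - c).choose b : ℂ) •
      ((X 0 : MvPolynomial (Fin 3) ℂ) ^ (k - c - b) * X 1 ^ b * X 2 ^ c)) (by
        intro t
        have h3 := h1 1 t c (by omega)
        rw [add_comm (C 1 * X 0), add_pow, Finset.mul_sum] at h3
        convert h3 using 2 with m hm
        rw [smul_eq_C_mul, smul_eq_C_mul, mul_pow, ← map_pow]
        have : (C ((k - c).choose m : ℂ) : MvPolynomial (Fin 3) ℂ) =
            ((k - c).choose m : MvPolynomial (Fin 3) ℂ) := by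
          simp
        rw [this, map_one, one_mul]; ring) b (by omega)
    have h5 : ((k - c).choose b : ℂ) ≠ 0 := by
      exact_mod_cast (Nat.choose_pos (by omega)).ne'
    exact (Submodule.smul_mem_iff H h5).mp h2
  intro f hf
  rw [f.as_sum]
  refine Submodule.sum_mem _ fun d hd => ?_
  have hdeg : d 0 + d 1 + d 2 = k := by
    have h7 := (mem_homogeneousSubmodule k f).mp hf (mem_support_iff.mp hd)
    rw [Finsupp.weight_apply, Finsupp.sum_fintype _ _ (by simp)] at h7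
    simpa [Fin.sum_univ_three] using h7
  have h8 : monomial d (coeff d f) = coeff d f •
      ((X 0 : MvPolynomial (Fin 3) ℂ) ^ (k - d 2 - d 1) * X 1 ^ (d 1) * X 2 ^ (d 2)) := by
    have h9 : k - d 2 - d 1 = d 0 := by omega
    rw [h9, smul_eq_C_mul, monomial_eq, Finsupp.prod_fintype _ _ (by simp), Fin.prod_univ_three]
  rw [h8]
  exact H.smul_mem _ (h6 (d 1) (d 2) (by omega))

variable (H : Submodule ℂ (MvPolynomial (Fin 3) ℂ))

/-- multiplication by `p` followed by the quotient by `H` -/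
noncomputable def mq (j : ℕ) (p : MvPolynomial (Fin 3) ℂ) :
    ↥(HS 3 j) →ₗ[ℂ] (MvPolynomial (Fin 3) ℂ ⧸ H) :=
  H.mkQ ∘ₗ (LinearMap.mulLeft ℂ p) ∘ₗ (HS 3 j).subtype

theorem mq_apply (j : ℕ) (p : MvPolynomial (Fin 3) ℂ) (g : ↥(HS 3 j)) :
    mq H j p g = Submodule.Quotient.mk (p * g.1) := rfl

theorem mq_eq_zero (j : ℕ) (p : MvPolynomial (Fin 3) ℂ) (g : ↥(HS 3 j)) :
    mq H j p g = 0 ↔ p * g.1 ∈ H := by
  rw [mq_apply, Submodule.Quotient.mk_eq_zero]

theorem mq_add (j : ℕ) (p q : MvPolynomial (Fin 3) ℂ) : mq H j (p + q) = mq H j p + mq H j q := by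
  ext g
  simp only [mq_apply, add_mul, LinearMap.add_apply]
  rfl

theorem mq_smul (j : ℕ) (t : ℂ) (p : MvPolynomial (Fin 3) ℂ) : mq H j (t • p) = t • mq H j p := by
  ext g
  simp only [mq_apply, smul_mul_assoc, LinearMap.smul_apply]
  rfl

theorem poly_pow (h1 : PM_stmt) (p q : MvPolynomial (Fin 3) ℂ) (i : ℕ) :
    IsPolyMap fun t : ℂ => (p + t • q) ^ i := by
  have := h1.prod ℕ (Finset.range i) (MvPolynomial (Fin 3) ℂ) (fun _ t => p + t • q)
    (fun _ _ => h1.line _ p q)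
  simpa using this

theorem binom_split (p q : MvPolynomial (Fin 3) ℂ) (i : ℕ) (t : ℂ) :
    (p + t • q) ^ (i + 1) = p ^ (i + 1) + t • (((i + 1 : ℕ) : ℂ) • (p ^ i * q)) +
      t ^ 2 • ∑ a ∈ Finset.range i, t ^ a • (((i + 1).choose (a + 2) : ℂ) •
        (p ^ (i + 1 - (a + 2)) * q ^ (a + 2))) := by
  rw [add_comm p, add_pow, Finset.sum_range_succ', Finset.sum_range_succ']
  have e0 : (t • q) ^ 0 * p ^ (i + 1 - 0) * ((i + 1).choose 0 : MvPolynomial (Fin 3) ℂ) =
      p ^ (i + 1) := by simp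
  have e1 : (t • q) ^ (0 + 1) * p ^ (i + 1 - (0 + 1)) *
      ((i + 1).choose (0 + 1) : MvPolynomial (Fin 3) ℂ) =
      t • (((i + 1 : ℕ) : ℂ) • (p ^ i * q)) := by
    simp only [smul_eq_C_mul, zero_add, pow_one, Nat.add_sub_cancel, Nat.choose_one_right,
      map_natCast]
    ring
  rw [e0, e1, Finset.smul_sum]
  have e2 : ∀ a ∈ Finset.range i, (t • q) ^ (a + 1 + 1) * p ^ (i + 1 - (a + 1 + 1)) *
      ((i + 1).choose (a + 1 + 1) : MvPolynomial (Fin 3) ℂ) =
      t ^ 2 • t ^ a • (((i + 1).choose (a + 2) : ℂ) •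
        (p ^ (i + 1 - (a + 2)) * q ^ (a + 2))) := by
    intro a _
    simp only [smul_eq_C_mul, map_natCast, mul_pow, map_pow]
    ring
  rw [Finset.sum_congr rfl e2]
  ring

theorem CLOS (h1 : PM_stmt) (h2 : LO_stmt) (h3 : DIM_stmt) (h4 : RNK_stmt) : CLOS_stmt := by
  intro k hk H hH hne
  have hfd : ∀ j, FiniteDimensional ℂ ↥(HS 3 j) := fun j => (h3 2 j).1
  -- kernel dimensions
  let kd : ℕ → (Fin 3 → ℂ) → ℕ := fun j z =>
    Module.finrank ℂ ↥(LinearMap.ker (mq H j (lf z ^ (k - j))))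
  have hmin : ∀ j, ∃ z, ∀ z', kd j z ≤ kd j z' := by
    intro j
    have hex : ∃ n, ∃ z, kd j z = n := ⟨kd j 0, 0, rfl⟩
    classical
    obtain ⟨z, hz⟩ := Nat.find_spec hex
    exact ⟨z, fun z' => hz ▸ Nat.find_min' hex ⟨z', rfl⟩⟩
  choose zm hzm using hmin
  have hLO : ∀ j, LineOpen {z | kd j z ≤ kd j (zm j)} := by
    intro j
    have := hfd j
    refine h2.ker (Fin 3 → ℂ) ↥(HS 3 j) (MvPolynomial (Fin 3) ℂ ⧸ H)
      (fun z => mq H j (lf z ^ (k - j))) ?_ (kd j (zm j))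
    intro v p q
    have e : (fun t : ℂ => mq H j (lf (p + t • q) ^ (k - j)) v) =
        fun t : ℂ => (H.mkQ ∘ₗ LinearMap.mulRight ℂ v.1) ((lf p + t • lf q) ^ (k - j)) := by
      funext t
      rw [lf_add, lf_smul, mq_apply]
      rfl
    rw [e]
    exact h1.lin _ _ _ _ (poly_pow h1 (lf p) (lf q) (k - j))
  obtain ⟨-, z, hz⟩ := h2.all (Fin 3 → ℂ) (Fin (k + 1)) (fun j => {z | kd j z ≤ kd j (zm j)})
    (fun j => ⟨hLO j, ⟨zm j, by rw [Set.mem_ofPred_eq]⟩⟩)
  have hz' : ∀ j < k + 1, ∀ z', kd j z ≤ kd j z' := by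
    intro j hj z'
    have h5 := Set.mem_iInter.mp hz ⟨j, hj⟩
    exact le_trans h5 (hzm j z')
  have hzk : lf z ^ k ∉ H := by
    intro hmem
    apply hne
    apply powers_span
    intro z'
    have h6 := hz' 0 (by omega) z'
    have := hfd 0
    have h7 : LinearMap.ker (mq H 0 (lf z ^ (k - 0))) = ⊤ := by
      rw [eq_top_iff]
      intro g _
      rw [LinearMap.mem_ker, mq_eq_zero]
      have h8 : g.1.totalDegree = 0 := by
        have := (mem_homogeneousSubmodule 0 g.1).mp g.2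
        exact Nat.le_zero.mp this.totalDegree_le
      rw [totalDegree_eq_zero_iff_eq_C] at h8
      rw [h8, mul_comm, ← smul_eq_C_mul]
      exact H.smul_mem _ (by simpa using hmem)
    have h9 : LinearMap.ker (mq H 0 (lf z' ^ (k - 0))) = ⊤ := by
      apply Submodule.eq_top_of_finrank_eq
      apply le_antisymm (Submodule.finrank_le _)
      have h10 : Module.finrank ℂ ↥(LinearMap.ker (mq H 0 (lf z ^ (k - 0)))) =
          Module.finrank ℂ ↥(HS 3 0) := by rw [h7]; exact finrank_top _ _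
      rw [← h10]
      exact h6
    have h11 : (⟨1, by
        rw [mem_homogeneousSubmodule]; exact isHomogeneous_one _ _⟩ : ↥(HS 3 0)) ∈
        LinearMap.ker (mq H 0 (lf z' ^ (k - 0))) := by rw [h9]; trivial
    rw [LinearMap.mem_ker, mq_eq_zero] at h11
    simpa using h11
  refine ⟨z, ?_, hzk, ?_⟩
  · rintro rfl
    apply hzk
    rw [lf_zero, zero_pow (by omega)]
    exact H.zero_mem
  intro j hj g hg hgH c
  obtain ⟨i, hi⟩ : ∃ i, k - j = i + 1 := ⟨k - j - 1, by omega⟩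
  have := hfd j
  have h12 := h4 ↥(HS 3 j) (MvPolynomial (Fin 3) ℂ ⧸ H) (mq H j (lf z ^ (i + 1)))
    (mq H j (((i + 1 : ℕ) : ℂ) • (lf z ^ i * lf c)))
    (fun t => mq H j (∑ a ∈ Finset.range i, t ^ a • (((i + 1).choose (a + 2) : ℂ) •
        (lf z ^ (i + 1 - (a + 2)) * lf c ^ (a + 2)))))
    (by
      intro v
      have e : (fun t : ℂ => mq H j (∑ a ∈ Finset.range i, t ^ a •
          (((i + 1).choose (a + 2) : ℂ) • (lf z ^ (i + 1 - (a + 2)) * lf c ^ (a + 2)))) v) =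
          fun t : ℂ => (H.mkQ ∘ₗ LinearMap.mulRight ℂ v.1) (∑ a ∈ Finset.range i, t ^ a •
          (((i + 1).choose (a + 2) : ℂ) • (lf z ^ (i + 1 - (a + 2)) * lf c ^ (a + 2)))) := rfl
      rw [e]
      exact h1.lin _ _ _ _ ⟨i, fun a => ((i + 1).choose (a + 2) : ℂ) •
        (lf z ^ (i + 1 - (a + 2)) * lf c ^ (a + 2)), fun t => rfl⟩)
    (by
      intro t
      have e : mq H j (lf z ^ (i + 1)) + t • mq H j (((i + 1 : ℕ) : ℂ) • (lf z ^ i * lf c)) +
          t ^ 2 • mq H j (∑ a ∈ Finset.range i, t ^ a • (((i + 1).choose (a + 2) : ℂ) •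
          (lf z ^ (i + 1 - (a + 2)) * lf c ^ (a + 2)))) =
          mq H j (lf (z + t • c) ^ (i + 1)) := by
        rw [← mq_smul, ← mq_smul, ← mq_add, ← mq_add, lf_add, lf_smul, binom_split]
      rw [e]
      have h13 := hz' j (by omega) (z + t • c)
      simp only [kd] at h13
      rw [hi] at h13
      have e1 := LinearMap.finrank_range_add_finrank_ker (mq H j (lf z ^ (i + 1)))
      have e2 := LinearMap.finrank_range_add_finrank_ker (mq H j (lf (z + t • c) ^ (i + 1)))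
      omega)
    ⟨g, hg⟩ (by rw [mq_eq_zero]; rw [hi] at hgH; exact hgH)
  obtain ⟨g'', hg''⟩ := h12
  have hne0 : ((i + 1 : ℕ) : ℂ) ≠ 0 := by exact_mod_cast Nat.succ_ne_zero i
  refine ⟨((i + 1 : ℕ) : ℂ)⁻¹ • g''.1, (HS 3 j).smul_mem _ g''.2, ?_⟩
  rw [mq_apply, mq_apply, Submodule.Quotient.eq] at hg''
  have e3 : k - j - 1 = i := by omega
  rw [e3]
  have e4 : lf z ^ i * (lf c * g - lf z * (((i + 1 : ℕ) : ℂ)⁻¹ • g''.1)) =
      (-((i + 1 : ℕ) : ℂ)⁻¹) • (lf z ^ (i + 1) * g''.1 -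
        (((i + 1 : ℕ) : ℂ) • (lf z ^ i * lf c)) * g) := by
    rw [smul_sub, smul_mul_assoc, smul_smul, neg_mul, inv_mul_cancel₀ hne0]
    simp only [smul_eq_C_mul, map_neg, map_one]
    ring
  rw [e4]
  exact H.smul_mem _ hg''

end Pool.Agent.Helper75.DS
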