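import Pool.Agent.Helper68.DS.Goals2

set_option autoImplicit false

namespace Pool.Agent.Helper75.DS.PSPaux

open Pool.Agent.Helper68.DS MvPolynomial

/-- the exponent `(a, b)` -/
noncomputable def mu (a b : ℕ) : Fin 2 →₀ ℕ := Finsupp.single 0 a + Finsupp.single 1 b

theorem mu_zero (a b : ℕ) : mu a b 0 = a := by simp [mu]
theorem mu_one (a b : ℕ) : mu a b 1 = b := by simp [mu]

theorem mu_inj {a b a' b' : ℕ} (h : mu a b = mu a' b') : a = a' ∧ b = b' := by
  refine ⟨?_, ?_⟩
  · have := DFunLike.congr_fun h 0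
    rwa [mu_zero, mu_zero] at this
  · have := DFunLike.congr_fun h 1
    rwa [mu_one, mu_one] at this

theorem mono_eq (a b : ℕ) (c : ℂ) :
    (monomial (mu a b) c : MvPolynomial (Fin 2) ℂ) = C c * X 0 ^ a * X 1 ^ b := by
  rw [monomial_eq, Finsupp.prod_fintype _ _ (by simp), Fin.prod_univ_two, mu_zero, mu_one]
  ring

theorem coeff_lin_pow (α β : ℂ) (m a b : ℕ) :
    coeff (mu a b) ((C α * X 0 + C β * X 1 : MvPolynomial (Fin 2) ℂ) ^ m) =
      if a + b = m then (m.choose a : ℂ) * α ^ a * β ^ b else 0 := by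
  classical
  rw [add_pow]
  have h : ∀ i ∈ Finset.range (m + 1),
      (C α * X 0 : MvPolynomial (Fin 2) ℂ) ^ i * (C β * X 1) ^ (m - i) *
        (m.choose i : MvPolynomial (Fin 2) ℂ) =
      monomial (mu i (m - i)) ((m.choose i : ℂ) * α ^ i * β ^ (m - i)) := by
    intro i _
    rw [mono_eq]
    simp only [mul_pow, map_mul, map_pow, map_natCast]
    ring
  rw [Finset.sum_congr rfl h, coeff_sum]
  simp only [coeff_monomial]
  split_ifs with hab
  · rw [Finset.sum_eq_single a]
    · have : m - a = b := by omega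
      rw [this, if_pos rfl]
    · intro i _ hi
      rw [if_neg]
      intro h'
      exact hi (mu_inj h').1
    · intro ha
      exact absurd (Finset.mem_range.mpr (by omega)) ha
  · apply Finset.sum_eq_zero
    intro i hi
    rw [if_neg]
    intro h'
    obtain ⟨h1, h2⟩ := mu_inj h'
    have := Finset.mem_range.mp hi
    omega

theorem mu_sub_zero (a b : ℕ) : mu (a + 1) b - Finsupp.single 0 1 = mu a b := by
  ext i
  fin_cases i <;> simp [mu]

theorem mu_sub_one (a b : ℕ) : mu a (b + 1) - Finsupp.single 1 1 = mu a b := by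
  ext i
  fin_cases i <;> simp [mu]

theorem coeff_X0 (a b : ℕ) (G : MvPolynomial (Fin 2) ℂ) :
    coeff (mu (a + 1) b) (X 0 * G) = coeff (mu a b) G := by
  rw [coeff_X_mul', if_pos, mu_sub_zero]
  rw [Finsupp.mem_support_iff, mu_zero]; omega

theorem coeff_X0' (b : ℕ) (G : MvPolynomial (Fin 2) ℂ) :
    coeff (mu 0 b) (X 0 * G) = 0 := by
  rw [coeff_X_mul', if_neg]
  rw [Finsupp.mem_support_iff, mu_zero]; omega

theorem coeff_X1 (a b : ℕ) (G : MvPolynomial (Fin 2) ℂ) :
    coeff (mu a (b + 1)) (X 1 * G) = coeff (mu a b) G := by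
  rw [coeff_X_mul', if_pos, mu_sub_one]
  rw [Finsupp.mem_support_iff, mu_one]; omega

theorem coeff_X1' (a : ℕ) (G : MvPolynomial (Fin 2) ℂ) :
    coeff (mu a 0) (X 1 * G) = 0 := by
  rw [coeff_X_mul', if_neg]
  rw [Finsupp.mem_support_iff, mu_one]; omega

/-- the weight -/
noncomputable def ww (a b : ℕ) : ℂ := (-1) ^ (a + b - 1) * ((a + b).choose a : ℂ) / ((a + b : ℕ) : ℂ)

theorem ww_ne (a b : ℕ) (h : 1 ≤ a + b) : ww a b ≠ 0 := by
  unfold ww
  have h1 : ((a + b).choose a : ℂ) ≠ 0 := by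
    exact_mod_cast (Nat.choose_pos (by omega)).ne'
  have h2 : ((a + b : ℕ) : ℂ) ≠ 0 := by
    exact_mod_cast (by omega : a + b ≠ 0)
  have h3 : ((-1 : ℂ)) ^ (a + b - 1) ≠ 0 := pow_ne_zero _ (by norm_num)
  exact div_ne_zero (mul_ne_zero h3 h1) h2

theorem ww_left (a b : ℕ) : ww (a + 1) b * ((a + 1 : ℕ) : ℂ) =
    (-1) ^ (a + b) * ((a + b).choose a : ℂ) := by
  unfold ww
  have h2 : ((a + 1 + b : ℕ) : ℂ) ≠ 0 := by
    exact_mod_cast (by omega : a + 1 + b ≠ 0)
  have h4 : a + 1 + b - 1 = a + b := by omega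
  have h5 := Nat.add_one_mul_choose_eq (a + b) a
  have h6 : ((a + 1 + b : ℕ) : ℂ) * ((a + b).choose a : ℂ) =
      ((a + 1 + b).choose (a + 1) : ℂ) * ((a + 1 : ℕ) : ℂ) := by
    have h7 : a + 1 + b = (a + b).succ := by omega
    rw [h7]
    exact_mod_cast h5
  rw [h4, div_mul_eq_mul_div, div_eq_iff h2]
  linear_combination (-(-1 : ℂ) ^ (a + b)) * h6

theorem ww_right (a b : ℕ) : ww a (b + 1) * ((b + 1 : ℕ) : ℂ) =
    (-1) ^ (a + b) * ((a + b).choose a : ℂ) := by
  unfold ww
  have h2 : ((a + (b + 1) : ℕ) : ℂ) ≠ 0 := by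
    exact_mod_cast (by omega : a + (b + 1) ≠ 0)
  have h4 : a + (b + 1) - 1 = a + b := by omega
  have h5 := Nat.add_one_mul_choose_eq (a + b) b
  have h6 : ((a + (b + 1) : ℕ) : ℂ) * ((a + b).choose a : ℂ) =
      ((a + (b + 1)).choose a : ℂ) * ((b + 1 : ℕ) : ℂ) := by
    have h7 : a + (b + 1) = (a + b).succ := by omega
    have h8 : (a + (b + 1)).choose a = (a + b).succ.choose b.succ := by
      have h9 := Nat.choose_symm_add (a := a) (b := b + 1)
      rw [h9, h7]
    have h10 : (a + b).choose a = (a + b).choose b := Nat.choose_symm_add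
    rw [h8, h7, h10]
    exact_mod_cast h5
  rw [h4, div_mul_eq_mul_div, div_eq_iff h2]
  linear_combination (-(-1 : ℂ) ^ (a + b)) * h6

theorem pderiv0_eval (α β c : ℂ) (a b : ℕ) :
    eval ![α, β] (pderiv 0 (monomial (mu (a + 1) b) c : MvPolynomial (Fin 2) ℂ)) =
      c * ((a + 1 : ℕ) : ℂ) * (α ^ a * β ^ b) := by
  rw [pderiv_monomial, mu_sub_zero, mu_zero, mono_eq]
  simp
  ring

theorem pderiv0_eval' (α β c : ℂ) (b : ℕ) :
    eval ![α, β] (pderiv 0 (monomial (mu 0 b) c : MvPolynomial (Fin 2) ℂ)) = 0 := by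
  rw [pderiv_monomial, mu_zero]
  simp

theorem pderiv1_eval (α β c : ℂ) (a b : ℕ) :
    eval ![α, β] (pderiv 1 (monomial (mu a (b + 1)) c : MvPolynomial (Fin 2) ℂ)) =
      c * ((b + 1 : ℕ) : ℂ) * (α ^ a * β ^ b) := by
  rw [pderiv_monomial, mu_sub_one, mu_one, mono_eq]
  simp
  ring

theorem pderiv1_eval' (α β c : ℂ) (a : ℕ) :
    eval ![α, β] (pderiv 1 (monomial (mu a 0) c : MvPolynomial (Fin 2) ℂ)) = 0 := by
  rw [pderiv_monomial, mu_one]
  simp

/-- the geometric sum -/
noncomputable def gs (k : ℕ) (α β : ℂ) : MvPolynomial (Fin 2) ℂ :=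
  ∑ a ∈ Finset.range (k + 1), (-1) ^ a * (C α * X 0 + C β * X 1) ^ a

theorem coeff_gs (k : ℕ) (α β : ℂ) (a b : ℕ) (h : a + b ≤ k) :
    coeff (mu a b) (gs k α β) = (-1) ^ (a + b) * ((a + b).choose a : ℂ) * (α ^ a * β ^ b) := by
  unfold gs
  rw [coeff_sum]
  have h1 : ∀ m ∈ Finset.range (k + 1),
      coeff (mu a b) ((-1) ^ m * (C α * X 0 + C β * X 1 : MvPolynomial (Fin 2) ℂ) ^ m) =
      if m = a + b then (-1) ^ (a + b) * ((a + b).choose a : ℂ) * (α ^ a * β ^ b) else 0 := by
    intro m _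
    have h2 : ((-1) ^ m : MvPolynomial (Fin 2) ℂ) = C ((-1) ^ m) := by simp
    rw [h2, coeff_C_mul, coeff_lin_pow]
    split_ifs with h3 h4 h4
    · rw [h4]; ring
    · exact absurd h3.symm h4
    · exact absurd h4.symm h3
    · simp
  rw [Finset.sum_congr rfl h1, Finset.sum_ite_eq' (Finset.range (k + 1)) (a + b),
    if_pos (Finset.mem_range.mpr (by omega))]

theorem one_term (k : ℕ) (α β q r c : ℂ) (a b : ℕ) (h1 : 1 ≤ a + b) (hk : a + b ≤ k) :
    q * eval ![α, β] (pderiv 0 (monomial (mu a b) (ww a b * c) : MvPolynomial (Fin 2) ℂ)) +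
      r * eval ![α, β] (pderiv 1 (monomial (mu a b) (ww a b * c) : MvPolynomial (Fin 2) ℂ)) =
    c * coeff (mu a b) ((C q * X 0 + C r * X 1) * gs k α β) := by
  have e : (C q * X 0 + C r * X 1) * gs k α β = C q * (X 0 * gs k α β) + C r * (X 1 * gs k α β) := by
    ring
  rw [e, coeff_add, coeff_C_mul, coeff_C_mul]
  have e0 : eval ![α, β] (pderiv 0 (monomial (mu a b) (ww a b * c) : MvPolynomial (Fin 2) ℂ)) =
      c * coeff (mu a b) (X 0 * gs k α β) := by
    rcases a with _ | a
    · rw [pderiv0_eval', coeff_X0', mul_zero]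
    · rw [pderiv0_eval, coeff_X0, coeff_gs k α β a b (by omega)]
      have := ww_left a b
      linear_combination (c * (α ^ a * β ^ b)) * this
  have e1 : eval ![α, β] (pderiv 1 (monomial (mu a b) (ww a b * c) : MvPolynomial (Fin 2) ℂ)) =
      c * coeff (mu a b) (X 1 * gs k α β) := by
    rcases b with _ | b
    · rw [pderiv1_eval', coeff_X1', mul_zero]
    · rw [pderiv1_eval, coeff_X1, coeff_gs k α β a b (by omega)]
      have := ww_right a b
      linear_combination (c * (α ^ a * β ^ b)) * this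
  rw [e0, e1]
  ring

/-- indices: degree `j + 1`, exponent `a` of the first variable -/
abbrev Ix (k : ℕ) : Type := (j : Fin k) × Fin ((j : ℕ) + 2)

theorem card_Ix (k : ℕ) : (k + 2).choose 2 = Fintype.card (Ix k) + 1 := by
  rw [Fintype.card_sigma]
  simp only [Fintype.card_fin]
  rw [Fin.sum_univ_eq_sum_range (fun j => j + 2) k]
  induction k with
  | zero => simp
  | succ k ih =>
    rw [Finset.sum_range_succ, Nat.choose_succ_succ' (k + 2) 1, ih, Nat.choose_one_right]
    ring

/-- first exponent -/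
def ia {k : ℕ} (i : Ix k) : ℕ := i.2
/-- second exponent -/
def ib {k : ℕ} (i : Ix k) : ℕ := (i.1 : ℕ) + 1 - i.2

theorem iab {k : ℕ} (i : Ix k) : ia i + ib i = (i.1 : ℕ) + 1 := by
  have := i.2.2
  simp only [ia, ib]
  omega

theorem iab1 {k : ℕ} (i : Ix k) : 1 ≤ ia i + ib i := by rw [iab]; omega
theorem iabk {k : ℕ} (i : Ix k) : ia i + ib i ≤ k := by
  rw [iab]
  have := i.1.2
  omega

theorem mu_ix_inj {k : ℕ} {i i' : Ix k} (h : mu (ia i) (ib i) = mu (ia i') (ib i')) : i = i' := by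
  obtain ⟨h1, h2⟩ := mu_inj h
  have h3 := iab i
  have h4 := iab i'
  obtain ⟨j, a⟩ := i
  obtain ⟨j', a'⟩ := i'
  have hj : j = j' := by
    apply Fin.ext
    simp only at h3 h4
    omega
  subst hj
  have ha : a = a' := by
    apply Fin.ext
    exact h1
  rw [ha]

/-- the map `c ↦ F_c` -/
noncomputable def Fm (k : ℕ) : (Ix k → ℂ) →ₗ[ℂ] MvPolynomial (Fin 2) ℂ where
  toFun c := ∑ i, monomial (mu (ia i) (ib i)) (ww (ia i) (ib i) * c i)
  map_add' c d := by
    rw [← Finset.sum_add_distrib]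
    refine Finset.sum_congr rfl fun i _ => ?_
    rw [← map_add, Pi.add_apply, mul_add]
  map_smul' t c := by
    rw [RingHom.id_apply, Finset.smul_sum]
    refine Finset.sum_congr rfl fun i _ => ?_
    rw [smul_monomial, Pi.smul_apply, smul_eq_mul, smul_eq_mul]
    congr 1
    ring

/-- the functional `φ_c` -/
noncomputable def Ph (k : ℕ) (c : Ix k → ℂ) : MvPolynomial (Fin 2) ℂ →ₗ[ℂ] ℂ where
  toFun f := ∑ i, c i * coeff (mu (ia i) (ib i)) f
  map_add' f g := by
    rw [← Finset.sum_add_distrib]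
    refine Finset.sum_congr rfl fun i _ => ?_
    rw [coeff_add, mul_add]
  map_smul' t f := by
    rw [RingHom.id_apply, smul_eq_mul, Finset.mul_sum]
    refine Finset.sum_congr rfl fun i _ => ?_
    rw [coeff_smul, smul_eq_mul]
    ring

theorem coeff_Fm (k : ℕ) (c : Ix k → ℂ) (i : Ix k) :
    coeff (mu (ia i) (ib i)) (Fm k c) = ww (ia i) (ib i) * c i := by
  classical
  change coeff (mu (ia i) (ib i)) (∑ i, monomial (mu (ia i) (ib i)) (ww (ia i) (ib i) * c i)) = _
  rw [coeff_sum, Finset.sum_eq_single i]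
  · rw [coeff_monomial, if_pos rfl]
  · intro i' _ hi'
    rw [coeff_monomial, if_neg]
    intro h
    exact hi' (mu_ix_inj h)
  · intro h
    exact absurd (Finset.mem_univ i) h

theorem Fm_inj (k : ℕ) : Function.Injective (Fm k) := by
  rw [← LinearMap.ker_eq_bot, LinearMap.ker_eq_bot']
  intro c hc
  funext i
  have h := coeff_Fm k c i
  rw [hc, coeff_zero] at h
  exact (mul_eq_zero.mp h.symm).resolve_left (ww_ne _ _ (iab1 i))

/-- restriction of the functionals to the `J j` -/
noncomputable def Lm (k : ℕ) (J : ℕ → Submodule ℂ (MvPolynomial (Fin 2) ℂ)) :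
    (Ix k → ℂ) →ₗ[ℂ] ((j : Fin (k + 1)) → Module.Dual ℂ ↥(J j)) where
  toFun c j := (Ph k c) ∘ₗ (J j).subtype
  map_add' c d := by
    funext j
    ext g
    simp only [LinearMap.comp_apply, Pi.add_apply, LinearMap.add_apply]
    change ∑ i, (c i + d i) * _ = ∑ i, c i * _ + ∑ i, d i * _
    rw [← Finset.sum_add_distrib]
    exact Finset.sum_congr rfl fun i _ => add_mul _ _ _
  map_smul' t c := by
    funext j
    ext g
    simp only [LinearMap.comp_apply, Pi.smul_apply, LinearMap.smul_apply, RingHom.id_apply,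
      smul_eq_mul]
    change ∑ i, (t * c i) * _ = t * ∑ i, c i * _
    rw [Finset.mul_sum]
    exact Finset.sum_congr rfl fun i _ => mul_assoc _ _ _

end Pool.Agent.Helper75.DS.PSPaux

namespace Pool.Agent.Helper75.DS

open Pool.Agent.Helper68.DS MvPolynomial PSPaux

theorem PSP (h1 : DIM_stmt) : PSP_stmt := by
  intro k hk J hJ hJ0
  have hfd : ∀ j, FiniteDimensional ℂ ↥(J j) := by
    intro j
    have : FiniteDimensional ℂ ↥(HS 2 j) := (h1 1 j).1
    exact Submodule.finiteDimensional_of_le (hJ j)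
  refine ⟨(LinearMap.ker (Lm k J)).map (Fm k), ?_, ?_, ?_⟩
  · have e1 : Module.finrank ℂ ↥((LinearMap.ker (Lm k J)).map (Fm k)) =
        Module.finrank ℂ ↥(LinearMap.ker (Lm k J)) :=
      (LinearEquiv.finrank_eq (Submodule.equivMapOfInjective (Fm k) (Fm_inj k) _)).symm
    have e2 := LinearMap.finrank_range_add_finrank_ker (Lm k J)
    have e3 : Module.finrank ℂ (Ix k → ℂ) = Fintype.card (Ix k) := Module.finrank_fintype_fun_eq_card ℂ
    have e4 : Module.finrank ℂ ↥(LinearMap.range (Lm k J)) ≤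
        ∑ j ∈ Finset.range (k + 1), Module.finrank ℂ ↥(J j) := by
      refine (Submodule.finrank_le _).trans ?_
      rw [Module.finrank_pi_fintype]
      rw [← Fin.sum_univ_eq_sum_range (fun j => Module.finrank ℂ ↥(J j)) (k + 1)]
      refine Finset.sum_le_sum fun j _ => ?_
      rw [Subspace.dual_finrank_eq]
    rw [card_Ix, e1]
    omega
  · rintro F ⟨c, -, rfl⟩
    refine ⟨?_, ?_⟩
    · change (∑ i, monomial (mu (ia i) (ib i)) (ww (ia i) (ib i) * c i)).totalDegree ≤ k
      refine totalDegree_finsetSum_le fun i _ => ?_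
      refine (totalDegree_monomial_le _ _).trans ?_
      rw [Finsupp.sum_fintype _ _ (by simp), Fin.sum_univ_two, mu_zero, mu_one]
      exact iabk i
    · change coeff 0 (∑ i, monomial (mu (ia i) (ib i)) (ww (ia i) (ib i) * c i)) = 0
      rw [coeff_sum]
      refine Finset.sum_eq_zero fun i _ => ?_
      rw [coeff_monomial, if_neg]
      intro h
      have h2 := DFunLike.congr_fun h 0
      have h3 := DFunLike.congr_fun h 1
      rw [mu_zero] at h2
      rw [mu_one] at h3
      have := iab1 i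
      simp only [Finsupp.coe_zero, Pi.zero_apply] at h2 h3
      omega
  · rintro F ⟨c, hc, rfl⟩
    have hc' : Lm k J c = 0 := hc
    refine ⟨Ph k c, ?_, ?_, ?_⟩
    · intro j hj g hg
      have h2 := congrFun hc' ⟨j, by omega⟩
      have h3 := LinearMap.congr_fun h2 ⟨g, hg⟩
      exact h3
    · intro j hj g hg
      change ∑ i, c i * coeff (mu (ia i) (ib i)) g = 0
      refine Finset.sum_eq_zero fun i _ => ?_
      have h2 : coeff (mu (ia i) (ib i)) g = 0 := by
        by_contra hne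
        have h3 := (mem_homogeneousSubmodule j g).mp hg hne
        rw [Finsupp.weight_apply, Finsupp.sum_fintype _ _ (by simp), Fin.sum_univ_two, mu_zero,
          mu_one] at h3
        have := iabk i
        simp only [Pi.one_apply, smul_eq_mul, mul_one] at h3
        omega
      rw [h2, mul_zero]
    · intro α β q r
      change q * eval ![α, β] (pderiv 0 (∑ i, monomial (mu (ia i) (ib i)) (ww (ia i) (ib i) * c i))) +
        r * eval ![α, β] (pderiv 1 (∑ i, monomial (mu (ia i) (ib i)) (ww (ia i) (ib i) * c i))) =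
        ∑ i, c i * coeff (mu (ia i) (ib i)) ((C q * X 0 + C r * X 1) * gs k α β)
      rw [map_sum, map_sum, map_sum, map_sum, Finset.mul_sum, Finset.mul_sum,
        ← Finset.sum_add_distrib]
      exact Finset.sum_congr rfl fun i _ => one_term k α β q r (c i) _ _ (iab1 i) (iabk i)

end Pool.Agent.Helper75.DS
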