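import Pool.Agent.Helper68.DS.Goals

set_option autoImplicit false

namespace Pool.Agent.Helper75.DS

open Pool.Agent.Helper68.DS

theorem SCK (h1 : SC_stmt) : SCK_stmt := by
  intro V W _ _ _ _ _ T hT t₀
  let b := Module.finBasis ℂ V
  have key : ∀ t, Module.finrank ℂ ↥((⊥ : Submodule ℂ W) ⊔
      Submodule.span ℂ (Set.range fun a => T t (b a))) = Module.finrank ℂ ↥(LinearMap.range (T t)) := by
    intro t
    have h : (⊥ : Submodule ℂ W) ⊔ Submodule.span ℂ (Set.range fun a => T t (b a)) =
        LinearMap.range (T t) := by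
      rw [bot_sup_eq, LinearMap.range_eq_map, ← b.span_eq, Submodule.map_span, ← Set.range_comp]
      rfl
    rw [h]
  have h2 := h1 W ⊥ (Fin (Module.finrank ℂ V)) (fun a t => T t (b a)) (fun a => hT (b a)) t₀
  refine h2.subset ?_
  intro t ht
  simp only [Set.mem_ofPred_eq] at ht ⊢
  rw [key t, key t₀]
  have e1 := LinearMap.finrank_range_add_finrank_ker (T t)
  have e2 := LinearMap.finrank_range_add_finrank_ker (T t₀)
  omega

end Pool.Agent.Helper75.DS
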